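import Pool.Agent.LibGk1.Data

/-!
`Delta` is a `ℤ/2ℤ`-homology 5-sphere with `g₃ = 1` which has no admissible cell complex.
-/

open Finset

namespace Pool.Agent.LibGk1

def Fc (j : ℕ) : Finset ℕ := ofMask (fm j)
def Rs (j : ℕ) : Finset ℕ := ofMask (rm j)

theorem fm_lt {j : ℕ} (hj : j < 27) : fm j < 512 := by
  have h := chkBd_true
  unfold chkBd at h
  rw [List.all_eq_true] at h
  have := h j (List.mem_range.mpr hj)
  simp only [Bool.and_eq_true, decide_eq_true_eq] at this
  exact this.1.1

theorem rm_lt {j : ℕ} (hj : j < 27) : rm j < 512 := by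
  have h := chkBd_true
  unfold chkBd at h
  rw [List.all_eq_true] at h
  have := h j (List.mem_range.mpr hj)
  simp only [Bool.and_eq_true, decide_eq_true_eq] at this
  exact this.1.2

theorem rm_sub {j : ℕ} (hj : j < 27) : rm j &&& fm j = rm j := by
  have h := chkBd_true
  unfold chkBd at h
  rw [List.all_eq_true] at h
  have := h j (List.mem_range.mpr hj)
  simp only [Bool.and_eq_true, decide_eq_true_eq, beq_iff_eq] at this
  exact this.2

theorem isFaceMask_iff {m : ℕ} : isFaceMask m = true ↔ ∃ j, j < 27 ∧ m &&& fm j = m := by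
  unfold isFaceMask
  rw [List.any_eq_true]
  constructor
  · rintro ⟨f, hf, h⟩
    obtain ⟨j, hj, rfl⟩ := List.getElem_of_mem hf
    refine ⟨j, hj, ?_⟩
    have : fm j = facetList[j] := by
      unfold fm
      rw [List.getD_eq_getElem _ _ hj]
    rw [this]
    exact beq_iff_eq.mp h
  · rintro ⟨j, hj, h⟩
    have hj' : j < facetList.length := hj
    refine ⟨facetList[j], List.getElem_mem hj', ?_⟩
    have : fm j = facetList[j] := by
      unfold fm
      rw [List.getD_eq_getElem _ _ hj']
    rw [← this]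
    exact beq_iff_eq.mpr h

theorem mem_Delta {H : Finset ℕ} : H ∈ Delta ↔ ∃ j, j < 27 ∧ H ⊆ Fc j := by
  unfold Delta
  rw [Finset.mem_image]
  constructor
  · rintro ⟨m, hm, rfl⟩
    rw [Finset.mem_filter, Finset.mem_range] at hm
    obtain ⟨j, hj, h⟩ := isFaceMask_iff.mp hm.2
    exact ⟨j, hj, (ofMask_subset hm.1).mpr h⟩
  · rintro ⟨j, hj, h⟩
    obtain ⟨m, hm, rfl⟩ := exists_ofMask (h.trans (ofMask_sub_range _))
    refine ⟨m, ?_, rfl⟩
    rw [Finset.mem_filter, Finset.mem_range]
    exact ⟨hm, isFaceMask_iff.mpr ⟨j, hj, (ofMask_subset hm).mp h⟩⟩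

theorem mem_Delta_mask {m : ℕ} (hm : m < 512) : ofMask m ∈ Delta ↔ isFaceMask m = true := by
  rw [mem_Delta, isFaceMask_iff]
  constructor
  · rintro ⟨j, hj, h⟩
    exact ⟨j, hj, (ofMask_subset hm).mp h⟩
  · rintro ⟨j, hj, h⟩
    exact ⟨j, hj, (ofMask_subset hm).mpr h⟩

theorem Fc_card {j : ℕ} (hj : j < 27) : (Fc j).card = 6 := by
  have h : ∀ j < 27, (Fc j).card = 6 := by decide +kernel
  exact h j hj

theorem S1 : ∀ j, j < 27 → ∀ H, H ⊆ Fc j → ((∃ i, i < j ∧ H ⊆ Fc i) ↔ ¬ Rs j ⊆ H) := by
  intro j hj H hH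
  obtain ⟨m, hm, rfl⟩ := exists_ofMask (hH.trans (ofMask_sub_range _))
  have h := chkS1_true
  unfold chkS1 at h
  rw [List.all_eq_true] at h
  have h1 := h j (List.mem_range.mpr hj)
  rw [List.all_eq_true] at h1
  have h2 := h1 m (List.mem_range.mpr hm)
  have h3 : m &&& fm j = m := (ofMask_subset hm).mp hH
  rw [h3] at h2
  simp only [beq_self_eq_true, Bool.not_true, Bool.false_or, beq_iff_eq] at h2
  have h4 : (∃ i, i < j ∧ ofMask m ⊆ Fc i) ↔
      ((List.range j).any fun i => m &&& fm i == m) = true := by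
    rw [List.any_eq_true]
    constructor
    · rintro ⟨i, hi, h5⟩
      exact ⟨i, List.mem_range.mpr hi, beq_iff_eq.mpr ((ofMask_subset hm).mp h5)⟩
    · rintro ⟨i, hi, h5⟩
      exact ⟨i, List.mem_range.mp hi, (ofMask_subset hm).mpr (beq_iff_eq.mp h5)⟩
  rw [h4, h2]
  unfold Rs
  rw [ofMask_subset (rm_lt hj)]
  simp

theorem S2 : ∀ j, j < 27 → ∀ H, H ⊆ Fc j →
    ((∃ i, i < 27 ∧ j < i ∧ H ⊆ Fc i) ↔ ¬ Fc j \ Rs j ⊆ H) := by
  intro j hj H hH
  obtain ⟨m, hm, rfl⟩ := exists_ofMask (hH.trans (ofMask_sub_range _))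
  have h := chkS2_true
  unfold chkS2 at h
  rw [List.all_eq_true] at h
  have h1 := h j (List.mem_range.mpr hj)
  rw [List.all_eq_true] at h1
  have h2 := h1 m (List.mem_range.mpr hm)
  have h3 : m &&& fm j = m := (ofMask_subset hm).mp hH
  rw [h3] at h2
  simp only [beq_self_eq_true, Bool.not_true, Bool.false_or, beq_iff_eq] at h2
  have h4 : (∃ i, i < 27 ∧ j < i ∧ ofMask m ⊆ Fc i) ↔
      ((List.range 27).any fun i => decide (j < i) && (m &&& fm i == m)) = true := by
    rw [List.any_eq_true]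
    constructor
    · rintro ⟨i, hi, hji, h5⟩
      refine ⟨i, List.mem_range.mpr hi, ?_⟩
      rw [Bool.and_eq_true, decide_eq_true_eq, beq_iff_eq]
      exact ⟨hji, (ofMask_subset hm).mp h5⟩
    · rintro ⟨i, hi, h5⟩
      rw [Bool.and_eq_true, decide_eq_true_eq, beq_iff_eq] at h5
      exact ⟨i, List.mem_range.mp hi, h5.1, (ofMask_subset hm).mpr h5.2⟩
  rw [h4, h2]
  have h5 : Fc j \ Rs j = ofMask (fm j ^^^ rm j) := by
    ext i
    rw [Finset.mem_sdiff]
    unfold Fc Rs
    rw [mem_ofMask, mem_ofMask, mem_ofMask, Nat.testBit_xor]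
    have h6 : (rm j).testBit i = true → (fm j).testBit i = true := by
      intro h7
      rw [← rm_sub hj, Nat.testBit_and, Bool.and_eq_true] at h7
      exact h7.2
    cases h7 : (fm j).testBit i <;> cases h8 : (rm j).testBit i <;> simp
    rw [h7] at h6
    exact absurd (h6 h8) (by decide)
  have h6 : fm j ^^^ rm j < 512 := by
    have := Nat.xor_lt_two_pow (n := 9) (x := fm j) (y := rm j)
      (by norm_num; exact fm_lt hj) (by norm_num; exact rm_lt hj)
    norm_num at this
    exact this
  rw [h5, ofMask_subset h6]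
  simp

theorem Delta_isSphere : IsSphere (ZMod 2) 6 Delta :=
  isSphere_of_shelling (t := 27) (by norm_num) (fun _ => mem_Delta) (fun _ hj => Fc_card hj) S1 S2

theorem faceCount_mask (w i : ℕ) :
    faceCount (Delta.filter (fun s => s ⊆ ofMask w)) i =
      ((range 512).filter (fun m => isFaceMask m = true ∧ m &&& w = m ∧
        (ofMask m).card = i)).card := by
  unfold faceCount
  rw [Finset.filter_filter]
  have : Delta.filter (fun s => s ⊆ ofMask w ∧ s.card = i) =
      ((range 512).filter (fun m => isFaceMask m = true ∧ m &&& w = m ∧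
        (ofMask m).card = i)).image ofMask := by
    ext s
    rw [Finset.mem_filter, Finset.mem_image]
    constructor
    · rintro ⟨h1, h2, h3⟩
      unfold Delta at h1
      obtain ⟨m, hm, rfl⟩ := Finset.mem_image.mp h1
      rw [Finset.mem_filter, Finset.mem_range] at hm
      refine ⟨m, ?_, rfl⟩
      rw [Finset.mem_filter, Finset.mem_range]
      exact ⟨hm.1, hm.2, (ofMask_subset hm.1).mp h2, h3⟩
    · rintro ⟨m, hm, rfl⟩
      rw [Finset.mem_filter, Finset.mem_range] at hm
      exact ⟨(mem_Delta_mask hm.1).mpr hm.2.1, (ofMask_subset hm.1).mpr hm.2.2.1, hm.2.2.2⟩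
  rw [this, Finset.card_image_of_injOn]
  intro a ha b hb h
  rw [Finset.mem_coe, Finset.mem_filter, Finset.mem_range] at ha hb
  exact ofMask_inj ha.1 hb.1 h

def pc (m : ℕ) : ℕ := ((List.range 9).filter (fun i => m.testBit i)).length

theorem pc_eq (m : ℕ) : (ofMask m).card = pc m := by
  have h : ofMask m = ((List.range 9).filter (fun i => m.testBit i)).toFinset := by
    ext i
    rw [mem_ofMask, List.mem_toFinset, List.mem_filter, List.mem_range]
  rw [h, List.toFinset_card_of_nodup (List.Nodup.filter _ List.nodup_range)]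
  rfl

def cntL (w i : ℕ) : ℕ :=
  ((List.range 512).filter (fun m => (m &&& w == m) && (pc m == i) && isFaceMask m)).length

theorem faceCount_cntL (w i : ℕ) :
    faceCount (Delta.filter (fun s => s ⊆ ofMask w)) i = cntL w i := by
  rw [faceCount_mask]
  unfold cntL
  have h1 : ((range 512).filter (fun m => isFaceMask m = true ∧ m &&& w = m ∧
      (ofMask m).card = i)) = ((List.range 512).filter
        (fun m => (m &&& w == m) && (pc m == i) && isFaceMask m)).toFinset := by
    ext m
    rw [Finset.mem_filter, List.mem_toFinset, List.mem_filter, Finset.mem_range, List.mem_range,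
      pc_eq]
    simp only [Bool.and_eq_true, beq_iff_eq]
    tauto
  rw [h1, List.toFinset_card_of_nodup]
  exact List.Nodup.filter _ List.nodup_range

def gW (w : ℕ) : ℤ := -35 * (cntL w 0 : ℤ) + 15 * (cntL w 1 : ℤ) - 5 * (cntL w 2 : ℤ)
  + (cntL w 3 : ℤ)

theorem gNum_low {Γ Γ' : Finset (Finset ℕ)} (h : ∀ s : Finset ℕ, s.card ≤ 3 → (s ∈ Γ ↔ s ∈ Γ')) :
    gNum 6 Γ 3 = gNum 6 Γ' 3 := by
  have h1 : ∀ i, i ≤ 3 → faceCount Γ i = faceCount Γ' i := by
    intro i hi
    unfold faceCount
    congr 1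
    ext s
    rw [Finset.mem_filter, Finset.mem_filter]
    constructor
    · rintro ⟨h2, h3⟩
      exact ⟨(h s (by omega)).mp h2, h3⟩
    · rintro ⟨h2, h3⟩
      exact ⟨(h s (by omega)).mpr h2, h3⟩
  unfold gNum hNum
  rw [if_neg (by norm_num), if_neg (by norm_num)]
  congr 1
  · refine Finset.sum_congr rfl fun i hi => ?_
    rw [h1 i (by have := Finset.mem_range.mp hi; omega)]
  · refine Finset.sum_congr rfl fun i hi => ?_
    rw [h1 i (by have := Finset.mem_range.mp hi; omega)]

theorem gNum_eq (Γ : Finset (Finset ℕ)) : gNum 6 Γ 3 = -35 * (faceCount Γ 0 : ℤ) +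
    15 * (faceCount Γ 1 : ℤ) - 5 * (faceCount Γ 2 : ℤ) + (faceCount Γ 3 : ℤ) := by
  unfold gNum hNum
  rw [if_neg (by norm_num)]
  simp only [Finset.sum_range_succ, Finset.sum_range_zero]
  have e1 : Nat.choose (6 - 0) (6 - 3) = 20 := by decide
  have e2 : Nat.choose (6 - 1) (6 - 3) = 10 := by decide
  have e3 : Nat.choose (6 - 2) (6 - 3) = 4 := by decide
  have e4 : Nat.choose (6 - 3) (6 - 3) = 1 := by decide
  have e5 : Nat.choose (6 - 0) (6 - (3 - 1)) = 15 := by decide
  have e6 : Nat.choose (6 - 1) (6 - (3 - 1)) = 5 := by decide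
  have e7 : Nat.choose (6 - 2) (6 - (3 - 1)) = 1 := by decide
  norm_num [e1, e2, e3, e4, e5, e6, e7]
  ring

theorem gNum_filter (w : ℕ) : gNum 6 (Delta.filter (fun s => s ⊆ ofMask w)) 3 = gW w := by
  rw [gNum_eq]
  unfold gW
  simp only [faceCount_cntL]

theorem gW_check : ((List.range 511).all fun w => decide (pc w < 6) || !(gW w == 1)) = true := by
  decide +kernel

theorem gW_full : gW 511 = 1 := by decide +kernel

theorem Delta_gNum : gNum 6 Delta 3 = 1 := by
  have h : Delta.filter (fun s => s ⊆ ofMask 511) = Delta := by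
    apply Finset.filter_true_of_mem
    intro s hs
    obtain ⟨j, hj, h⟩ := mem_Delta.mp hs
    refine h.trans ((ofMask_sub_range _).trans ?_)
    have : ofMask 511 = range 9 := by decide
    rw [this]
  rw [← h, gNum_filter, gW_full]

theorem Delta_sub {s : Finset ℕ} (hs : s ∈ Delta) : s ⊆ range 9 := by
  obtain ⟨j, _, h⟩ := mem_Delta.mp hs
  exact h.trans (ofMask_sub_range _)

/-- The missing face `{1,2,3,4,5}` of dimension 4. -/
theorem missing : MissingFace Delta (ofMask 62) := by
  constructor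
  · rw [mem_Delta_mask (by norm_num)]
    decide
  · intro t ht
    obtain ⟨m, hm, rfl⟩ := exists_ofMask (ht.subset.trans (ofMask_sub_range _))
    rw [mem_Delta_mask hm]
    have h1 : m &&& 62 = m := (ofMask_subset hm).mp ht.subset
    have h2 : m ≠ 62 := by
      rintro rfl
      exact ht.2 subset_rfl
    have h3 : ∀ m < 512, m &&& 62 = m → m ≠ 62 → isFaceMask m = true := by decide +kernel
    exact h3 m hm h1 h2

theorem missing_card : (ofMask 62).card = 5 := by decide

theorem mem_verts {Δ : Finset (Finset ℕ)} (h : IsComplex Δ) {v : ℕ} :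
    v ∈ verts Δ ↔ {v} ∈ Δ := by
  unfold verts
  rw [Finset.mem_biUnion]
  constructor
  · rintro ⟨s, hs, hv⟩
    exact h.2 s hs _ (Finset.singleton_subset_iff.mpr hv)
  · intro hv
    exact ⟨{v}, hv, Finset.mem_singleton_self v⟩

theorem no_admissible (K D : Finset (Finset ℕ)) (h : Admissible 3 6 Delta K D) : False := by
  classical
  set S := bdry ℝ D with hS
  have hSc : IsComplex S := h.inS.1.1
  have hDc : IsComplex D := h.cell.1
  have hKc : IsComplex K := h.isComplex
  -- faces of `Delta` are faces of `K`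
  have hDK : ∀ τ ∈ Delta, τ ∈ K := by
    intro τ hτ
    rw [← h.boundary] at hτ
    unfold bdry at hτ
    obtain ⟨h1, h2⟩ := Finset.mem_filter.mp hτ
    by_contra hK
    have hD : τ ∈ D := by
      rcases Finset.mem_union.mp h1 with h3 | h3
      · exact absurd h3 hK
      · exact h3
    have hl : link (K ∪ D) τ = link D τ := by
      ext ρ
      unfold link
      rw [Finset.mem_filter, Finset.mem_filter]
      constructor
      · rintro ⟨_, h4, h5⟩
        have h6 : ρ ∪ τ ∈ D := by
          rcases Finset.mem_union.mp h5 with h7 | h7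
          · exact absurd (hKc.2 _ h7 _ Finset.subset_union_right) hK
          · exact h7
        exact ⟨hDc.2 _ h6 _ Finset.subset_union_left, h4, h6⟩
      · rintro ⟨h3, h4, h5⟩
        exact ⟨Finset.mem_union_right _ h3, h4, Finset.mem_union_right _ h5⟩
    rw [hl] at h2
    have : τ ∈ S := by
      rw [hS]
      unfold bdry
      exact Finset.mem_filter.mpr ⟨hD, h2⟩
    exact hK (h.bdry_subset this)
  -- vertices of `K` are vertices of `Delta`
  have hlow : ∀ τ ∈ K, τ.card ≤ 4 → τ ∈ Delta := fun τ hτ hc => h.low τ hτ (by omega)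
  have hKr : ∀ τ ∈ K, τ ⊆ range 9 := by
    intro τ hτ v hv
    have h1 : {v} ∈ K := hKc.2 _ hτ _ (Finset.singleton_subset_iff.mpr hv)
    have h2 := Delta_sub (hlow _ h1 (by simp))
    exact h2 (Finset.mem_singleton_self v)
  have hSr : verts S ⊆ range 9 := by
    intro v hv
    exact hKr _ (h.bdry_subset ((mem_verts hSc).mp hv)) (Finset.mem_singleton_self v)
  obtain ⟨w, hw, hwS⟩ := exists_ofMask hSr
  -- low dimensional faces
  have hlowS : ∀ τ : Finset ℕ, τ.card ≤ 4 → (τ ∈ S ↔ τ ∈ Delta ∧ τ ⊆ verts S) := by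
    intro τ hc
    constructor
    · intro h1
      refine ⟨hlow τ (h.bdry_subset h1) hc, ?_⟩
      intro v hv
      exact (mem_verts hSc).mpr (hSc.2 _ h1 _ (Finset.singleton_subset_iff.mpr hv))
    · rintro ⟨h1, h2⟩
      have h3 := h.meet τ (hDK τ h1)
      rwa [Finset.inter_eq_left.mpr h2] at h3
  -- `S` has a face with six vertices
  have hsix : 6 ≤ (verts S).card := by
    obtain ⟨_, t, ht, _, hc⟩ := h.inS.1.2.1 ∅ hSc.1
    rw [← hc]
    apply Finset.card_le_card
    intro v hv
    exact (mem_verts hSc).mpr (hSc.2 _ ht _ (Finset.singleton_subset_iff.mpr hv))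
  -- the vertex set of `S` is everything
  have hg : gNum 6 S 3 = gW w := by
    rw [← gNum_filter w]
    apply gNum_low
    intro s hs
    rw [hlowS s (by omega), Finset.mem_filter, hwS]
  have hw511 : w = 511 := by
    by_contra hne
    have h1 := List.all_eq_true.mp gW_check w (List.mem_range.mpr (by omega))
    have h2 : gW w = 1 := by rw [← hg]; exact h.gNum_eq
    rw [hwS, pc_eq] at hsix
    rw [h2] at h1
    simp at h1
    omega
  have hverts : verts S = range 9 := by
    rw [hwS, hw511]
    decide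
  -- so `K = S`
  have hKS : ∀ τ ∈ K, τ ∈ S := by
    intro τ hτ
    have h1 := h.meet τ hτ
    have h2 : τ ⊆ verts S := by
      rw [hverts]
      exact hKr τ hτ
    rwa [Finset.inter_eq_left.mpr h2] at h1
  have hKD : K ∪ D = D := by
    apply Finset.union_eq_right.mpr
    intro τ hτ
    have h1 := hKS τ hτ
    rw [hS] at h1
    unfold bdry at h1
    exact (Finset.mem_filter.mp h1).1
  have hDS : S = Delta := by
    rw [← h.boundary, hKD]
  have h1 := h.inS.2 (ofMask 62) (by rw [← hS, hDS]; exact missing)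
  rw [missing_card] at h1
  omega

end Pool.Agent.LibGk1
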