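import Pool.Agent.LibGk1.Shell

/-!
The 5-dimensional sphere `Delta` with 9 vertices and 27 facets.
-/

open Finset

namespace Pool.Agent.LibGk1

/-- The subset of `{0, …, 8}` encoded by a bit mask. -/
def ofMask (m : ℕ) : Finset ℕ := (range 9).filter (fun i => m.testBit i = true)

theorem mem_ofMask {m i : ℕ} : i ∈ ofMask m ↔ i < 9 ∧ m.testBit i = true := by
  unfold ofMask
  rw [Finset.mem_filter, Finset.mem_range]

theorem testBit_ge {m i : ℕ} (hm : m < 512) (hi : 9 ≤ i) : m.testBit i = false := by
  apply Nat.testBit_lt_two_pow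
  calc m < 2 ^ 9 := by norm_num; exact hm
    _ ≤ 2 ^ i := Nat.pow_le_pow_right (by norm_num) hi

theorem ofMask_subset {a b : ℕ} (ha : a < 512) : ofMask a ⊆ ofMask b ↔ a &&& b = a := by
  constructor
  · intro h
    apply Nat.eq_of_testBit_eq
    intro i
    rw [Nat.testBit_and]
    by_cases hi : i < 9
    · cases h1 : a.testBit i with
      | false => rfl
      | true =>
        have := (mem_ofMask.mp (h (mem_ofMask.mpr ⟨hi, h1⟩))).2
        rw [this]
        rfl
    · rw [testBit_ge ha (by omega)]
      rfl
  · intro h i hi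
    obtain ⟨h1, h2⟩ := mem_ofMask.mp hi
    refine mem_ofMask.mpr ⟨h1, ?_⟩
    rw [← h, Nat.testBit_and] at h2
    exact (Bool.and_eq_true_iff.mp h2).2

theorem ofMask_inj {a b : ℕ} (ha : a < 512) (hb : b < 512) (h : ofMask a = ofMask b) : a = b := by
  have h1 := (ofMask_subset ha).mp h.subset
  have h2 := (ofMask_subset hb).mp h.symm.subset
  rw [← h1, Nat.and_comm, h2]

theorem exists_mask (n : ℕ) : ∀ G : Finset ℕ, G ⊆ range n →
    ∃ m, m < 2 ^ n ∧ ∀ i, i ∈ G ↔ m.testBit i = true := by
  induction n with
  | zero =>
    intro G hG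
    refine ⟨0, by norm_num, fun i => ?_⟩
    have : G = ∅ := Finset.subset_empty.mp (by simpa using hG)
    rw [this]
    simp
  | succ n ih =>
    intro G hG
    obtain ⟨m, hm, hmG⟩ := ih (G.erase n) (by
      intro i hi
      have h1 := Finset.mem_range.mp (hG (Finset.mem_of_mem_erase hi))
      have h2 := Finset.ne_of_mem_erase hi
      exact Finset.mem_range.mpr (by omega))
    by_cases hn : n ∈ G
    · refine ⟨m ||| 2 ^ n, ?_, fun i => ?_⟩
      · exact Nat.or_lt_two_pow (lt_trans hm (Nat.pow_lt_pow_right (by norm_num) (by omega)))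
          (Nat.pow_lt_pow_right (by norm_num) (by omega))
      · rw [Nat.testBit_or, Nat.testBit_two_pow, Bool.or_eq_true, ← hmG, Finset.mem_erase]
        by_cases hi : i = n
        · subst hi
          simp [hn]
        · have : ¬ n = i := fun h => hi h.symm
          simp [hi, this]
    · refine ⟨m, lt_trans hm (Nat.pow_lt_pow_right (by norm_num) (by omega)), fun i => ?_⟩
      rw [← hmG, Finset.mem_erase]
      constructor
      · intro h
        exact ⟨fun h' => hn (h' ▸ h), h⟩
      · exact fun h => h.2

theorem exists_ofMask {G : Finset ℕ} (hG : G ⊆ range 9) : ∃ m, m < 512 ∧ G = ofMask m := by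
  obtain ⟨m, hm, h⟩ := exists_mask 9 G hG
  refine ⟨m, by norm_num at hm; exact hm, ?_⟩
  ext i
  rw [mem_ofMask, h]
  constructor
  · intro h1
    exact ⟨Finset.mem_range.mp (hG ((h i).mpr h1)), h1⟩
  · exact fun h1 => h1.2

theorem ofMask_sub_range (m : ℕ) : ofMask m ⊆ range 9 := Finset.filter_subset _ _

/-- The facets, in a shelling order. -/
def facetList : List ℕ := [183, 187, 189, 215, 219, 221, 222, 231, 235, 237, 238, 311, 315, 317,
  343, 347, 349, 350, 359, 363, 365, 366, 414, 430, 438, 442, 444]

/-- The restriction sets of the shelling. -/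
def restList : List ℕ := [0, 8, 12, 64, 72, 76, 14, 96, 104, 108, 46, 256, 264, 268, 320, 328, 332,
  270, 352, 360, 364, 302, 384, 416, 432, 440, 444]

def fm (j : ℕ) : ℕ := facetList.getD j 0
def rm (j : ℕ) : ℕ := restList.getD j 0

def isFaceMask (m : ℕ) : Bool := facetList.any (fun f => m &&& f == m)

/-- The complex. -/
def Delta : Finset (Finset ℕ) := ((range 512).filter (fun m => isFaceMask m = true)).image ofMask

def chkS1 : Bool := (List.range 27).all fun j => (List.range 512).all fun m =>
  !(m &&& fm j == m) || (((List.range j).any fun i => m &&& fm i == m) == !(rm j &&& m == rm j))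

def chkS2 : Bool := (List.range 27).all fun j => (List.range 512).all fun m =>
  !(m &&& fm j == m) ||
    (((List.range 27).any fun i => decide (j < i) && (m &&& fm i == m)) ==
      !((fm j ^^^ rm j) &&& m == (fm j ^^^ rm j)))

def chkBd : Bool := (List.range 27).all fun j => decide (fm j < 512) && decide (rm j < 512) &&
  (rm j &&& fm j == rm j)

theorem chkS1_true : chkS1 = true := by decide +kernel
theorem chkS2_true : chkS2 = true := by decide +kernel
theorem chkBd_true : chkBd = true := by decide +kernel

end Pool.Agent.LibGk1
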