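import Mathlib

/-!
Definitions for the question on admissible cell complexes of spheres with `g_k = 1`.
Complexes are finite abstract simplicial complexes with vertices in `ℕ`.
-/

open Finset

namespace Pool.Agent.LibGk1

/-- `Δ` is a finite abstract simplicial complex: a finite set of finite sets (its faces) which
contains `∅` and is closed under taking subsets. -/
def IsComplex (Δ : Finset (Finset ℕ)) : Prop :=
  ∅ ∈ Δ ∧ ∀ s ∈ Δ, ∀ t, t ⊆ s → t ∈ Δ

/-- The vertex set of `Δ`. -/
def verts (Δ : Finset (Finset ℕ)) : Finset ℕ := Δ.biUnion id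

/-- The link of `σ` in `Δ`. -/
def link (Δ : Finset (Finset ℕ)) (σ : Finset ℕ) : Finset (Finset ℕ) :=
  Δ.filter (fun τ => Disjoint τ σ ∧ τ ∪ σ ∈ Δ)

/-- The simplicial boundary map: the oriented simplex `v₀ < ⋯ < v_m` is sent to the sum of
`(-1)^i` times the simplex with `v_i` left out (a vertex is sent to the empty simplex). -/
noncomputable def bd (F : Type) [Field F] : (Finset ℕ →₀ F) →ₗ[F] (Finset ℕ →₀ F) :=
  Finsupp.linearCombination F (fun s : Finset ℕ =>
    ∑ v ∈ s, Finsupp.single (s.erase v) ((-1 : F) ^ (s.filter (· < v)).card))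

/-- The chains of `Δ` spanned by the faces with `n` vertices (dimension `n - 1`). -/
def chains (F : Type) [Field F] (Δ : Finset (Finset ℕ)) (n : ℕ) : Submodule F (Finset ℕ →₀ F) :=
  Finsupp.supported F F {s | s ∈ Δ ∧ s.card = n}

/-- Cycles in dimension `n - 1`. -/
noncomputable def cycles (F : Type) [Field F] (Δ : Finset (Finset ℕ)) (n : ℕ) :
    Submodule F (Finset ℕ →₀ F) :=
  chains F Δ n ⊓ LinearMap.ker (bd F)

/-- Boundaries in dimension `n - 1`. -/
noncomputable def boundaries (F : Type) [Field F] (Δ : Finset (Finset ℕ)) (n : ℕ) :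
    Submodule F (Finset ℕ →₀ F) :=
  (chains F Δ (n + 1)).map (bd F)

/-- The dimension of the quotient of `Z` by its submodule `Z ∩ B`. -/
noncomputable def quotDim (F : Type) [Field F] {V : Type} [AddCommGroup V] [Module F V]
    (Z B : Submodule F V) : ℕ :=
  Module.finrank F (Z ⧸ B.submoduleOf Z)

/-- The dimension of the reduced homology group `H_{n-1}(Δ; F)`, cycles modulo boundaries. -/
noncomputable def betti (F : Type) [Field F] (Δ : Finset (Finset ℕ)) (n : ℕ) : ℕ :=
  quotDim F (cycles F Δ n) (boundaries F Δ n)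

/-- `Δ` has the reduced `F`-homology of the sphere of dimension `m - 1`. -/
def SphereHomology (F : Type) [Field F] (Δ : Finset (Finset ℕ)) (m : ℕ) : Prop :=
  ∀ n, betti F Δ n = if n = m then 1 else 0

/-- The reduced `F`-homology of `Δ` vanishes. -/
def Acyclic (F : Type) [Field F] (Δ : Finset (Finset ℕ)) : Prop :=
  ∀ n, betti F Δ n = 0

/-- `Δ` is an `F`-homology sphere of dimension `d - 1`: pure of dimension `d - 1`, and the link of
each face `σ` has the `F`-homology of a sphere of dimension `d - 1 - |σ|`. -/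
def IsSphere (F : Type) [Field F] (d : ℕ) (Δ : Finset (Finset ℕ)) : Prop :=
  IsComplex Δ ∧ (∀ s ∈ Δ, s.card ≤ d ∧ ∃ t ∈ Δ, s ⊆ t ∧ t.card = d) ∧
    ∀ σ ∈ Δ, SphereHomology F (link Δ σ) (d - σ.card)

open Classical in
/-- The boundary complex of a homology ball: the faces whose link has vanishing reduced
homology. -/
noncomputable def bdry (F : Type) [Field F] (B : Finset (Finset ℕ)) : Finset (Finset ℕ) :=
  B.filter (fun σ => Acyclic F (link B σ))

/-- `B` is an `F`-homology ball of dimension `d`: pure of dimension `d`, with vanishing reduced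
homology, the link of each face `σ` has the homology of a sphere of dimension `d - |σ|` or
vanishing reduced homology, and the faces of the second kind form an `F`-homology sphere of
dimension `d - 1`. -/
def IsBall (F : Type) [Field F] (d : ℕ) (B : Finset (Finset ℕ)) : Prop :=
  IsComplex B ∧ (∀ s ∈ B, s.card ≤ d + 1 ∧ ∃ t ∈ B, s ⊆ t ∧ t.card = d + 1) ∧
    Acyclic F B ∧
    (∀ σ ∈ B, SphereHomology F (link B σ) (d + 1 - σ.card) ∨ Acyclic F (link B σ)) ∧
    IsSphere F d (bdry F B)

/-- The number `f_{i-1}` of faces with `i` vertices. -/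
def faceCount (Δ : Finset (Finset ℕ)) (i : ℕ) : ℕ := (Δ.filter (fun s => s.card = i)).card

/-- The number `h_j` of a complex of dimension `d - 1`. -/
def hNum (d : ℕ) (Δ : Finset (Finset ℕ)) (j : ℕ) : ℤ :=
  ∑ i ∈ range (j + 1), (-1) ^ (j - i) * (Nat.choose (d - i) (d - j) : ℤ) * (faceCount Δ i : ℤ)

/-- The number `g_j` of a complex of dimension `d - 1`. -/
def gNum (d : ℕ) (Δ : Finset (Finset ℕ)) (j : ℕ) : ℤ :=
  if j = 0 then 1 else hNum d Δ j - hNum d Δ (j - 1)

/-- `s` is a missing face of `Δ`: not a face, but all its proper subsets are faces. -/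
def MissingFace (Δ : Finset (Finset ℕ)) (s : Finset ℕ) : Prop :=
  s ∉ Δ ∧ ∀ t, t ⊂ s → t ∈ Δ

/-- The class `S(i, d - 1)`: the `ℤ/2ℤ`-homology spheres of dimension `d - 1` all of whose missing
faces have dimension at most `i`. -/
def InS (i d : ℕ) (Δ : Finset (Finset ℕ)) : Prop :=
  IsSphere (ZMod 2) d Δ ∧ ∀ s, MissingFace Δ s → s.card ≤ i + 1

/-- The simplicial complex `K` together with the exceptional cell `D` (an `ℝ`-homology `d`-ball)
is an admissible cell complex for `Δ`. The cell is placed so that it shares with `K` exactly the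
faces of its boundary complex `Σ = bdry ℝ D`. -/
structure Admissible (k d : ℕ) (Δ K D : Finset (Finset ℕ)) : Prop where
  isComplex : IsComplex K
  cell : IsBall ℝ d D
  bdry_subset : bdry ℝ D ⊆ K
  low : ∀ τ ∈ K, τ.card ≤ d - k + 1 → τ ∈ Δ
  inS : InS (d - k) d (bdry ℝ D)
  gNum_eq : gNum d (bdry ℝ D) k = 1
  meet : ∀ τ ∈ K, τ ∩ verts (bdry ℝ D) ∈ bdry ℝ D
  glue : K ∩ D = bdry ℝ D
  ball : IsBall ℝ d (K ∪ D)
  boundary : bdry ℝ (K ∪ D) = Δ

/-- `Δ` is the boundary complex of a simplicial `d`-polytope: its vertices can be mapped to points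
of `ℝ^d` which do not lie on a hyperplane, such that a set `σ` of vertices is a face of `Δ` if and
only if it is the vertex set of a proper face of the convex hull of these points, i.e. it is a
proper subset of the vertex set and some affine function vanishes on `σ` and is negative at all
other vertices. -/
def IsPolytopeBoundary (d : ℕ) (Δ : Finset (Finset ℕ)) : Prop :=
  IsComplex Δ ∧ ∃ p : ℕ → Fin d → ℝ,
    (∀ (a : Fin d → ℝ) (c : ℝ), (∀ v ∈ verts Δ, ∑ i, a i * p v i = c) → a = 0) ∧
    ∀ σ : Finset ℕ, σ ∈ Δ ↔ σ ⊂ verts Δ ∧ ∃ (a : Fin d → ℝ) (c : ℝ),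
      (∀ v ∈ σ, ∑ i, a i * p v i = c) ∧ ∀ v ∈ verts Δ \ σ, ∑ i, a i * p v i < c

end Pool.Agent.LibGk1
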