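import Pool.Agent.LibGk1.Core

/-!
`Delta` is the boundary complex of a simplicial 6-polytope with 9 vertices.
-/

open Finset

namespace Pool.Agent.LibGk1

/-- Integer coordinates of the nine vertices. -/
def pts : List (List ℤ) := [[2,0,0,0,0,0], [0,2,0,0,0,0], [0,0,2,0,0,0], [0,0,0,2,0,0],
  [0,0,0,0,0,0], [2,-2,-2,-2,4,4], [1,1,1,1,-1,-1], [0,0,0,0,2,0], [0,0,0,0,0,2]]

/-- The facet normals `n` with the right-hand side `c` of `n · x ≤ c` as last entry. -/
def nrm : List (List ℤ) := [[0,0,0,-2,0,-1,0], [0,0,-2,0,0,-1,0], [0,-2,0,0,0,-1,0],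
  [0,0,0,-1,0,-1,0], [0,0,-1,0,0,-1,0], [0,-1,0,0,0,-1,0], [-1,0,0,0,0,-1,0],
  [1,1,1,0,1,0,2], [1,1,0,1,1,0,2], [1,0,1,1,1,0,2], [2,3,3,3,3,2,6],
  [0,0,0,-2,-1,0,0], [0,0,-2,0,-1,0,0], [0,-2,0,0,-1,0,0], [0,0,0,-1,-1,0,0],
  [0,0,-1,0,-1,0,0], [0,-1,0,0,-1,0,0], [-1,0,0,0,-1,0,0], [1,1,1,0,0,1,2],
  [1,1,0,1,0,1,2], [1,0,1,1,0,1,2], [2,3,3,3,2,3,6], [-1,0,0,0,0,0,0],
  [0,1,1,1,1,1,2], [-1,0,0,-1,0,0,0], [-1,0,-1,0,0,0,0], [-1,-1,0,0,0,0,0]]

def pt (v i : ℕ) : ℤ := (pts.getD v []).getD i 0
def nr (j i : ℕ) : ℤ := (nrm.getD j []).getD i 0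

/-- Masks of the missing faces. -/
def missM : List ℕ := [385, 112, 448, 15, 62]

/-- Affine dependencies, positive exactly on the missing face. -/
def dep : List (List ℤ) := [[3,-1,-1,-1,-2,-2,-2,3,3], [-5,-1,-1,-1,2,2,6,-1,-1],
  [-1,-3,-3,-3,-1,-1,4,4,4], [4,2,2,2,-1,-1,-6,-1,-1], [-1,3,3,3,2,2,-2,-5,-5]]

def dp (k v : ℕ) : ℤ := (dep.getD k []).getD v 0

theorem chkN : ∀ j < 27, ∀ v < 9,
    (if (fm j).testBit v then (∑ i : Fin 6, nr j i * pt v i = nr j 6)
      else (∑ i : Fin 6, nr j i * pt v i < nr j 6)) := by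
  decide +kernel

theorem chkF : ∀ m < 512, isFaceMask m = true → ∀ v < 9, m.testBit v = false →
    ∃ j, j < 27 ∧ m &&& fm j = m ∧ (fm j).testBit v = false := by
  decide +kernel

theorem chkM : ∀ m < 511, isFaceMask m = false →
    ∃ k, k < 5 ∧ (missM.getD k 0) &&& m = missM.getD k 0 := by
  decide +kernel

theorem chkD : ∀ k < 5, (∀ i : Fin 6, ∑ v ∈ range 9, dp k v * pt v i = 0) ∧
    (∑ v ∈ range 9, dp k v = 0) ∧ ∀ v < 9,
      (if (missM.getD k 0).testBit v then 0 < dp k v else dp k v < 0) := by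
  decide +kernel

theorem verts_Delta : verts Delta = range 9 := by
  ext v
  rw [mem_verts Delta_isSphere.1]
  constructor
  · intro h
    exact Delta_sub h (Finset.mem_singleton_self v)
  · intro h
    have h1 : ({v} : Finset ℕ) ⊆ range 9 := Finset.singleton_subset_iff.mpr h
    obtain ⟨m, hm, hmv⟩ := exists_ofMask h1
    rw [hmv, mem_Delta_mask hm]
    have h2 : ∀ m < 512, pc m = 1 → isFaceMask m = true := by decide +kernel
    refine h2 m hm ?_
    rw [← pc_eq, ← hmv, Finset.card_singleton]

theorem Delta_polytope : IsPolytopeBoundary 6 Delta := by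
  refine ⟨Delta_isSphere.1, fun v i => ((pt v i : ℤ) : ℝ), ?_, ?_⟩
  · intro a c h
    rw [verts_Delta] at h
    have h4 := h 4 (by decide)
    have h0 := h 0 (by decide)
    have h1 := h 1 (by decide)
    have h2 := h 2 (by decide)
    have h3 := h 3 (by decide)
    have h7 := h 7 (by decide)
    have h8 := h 8 (by decide)
    simp only [Fin.sum_univ_six, pt, pts] at h0 h1 h2 h3 h4 h7 h8
    norm_num at h0 h1 h2 h3 h4 h7 h8
    ext i
    fin_cases i <;> simp <;> linarith
  · intro σ
    rw [verts_Delta]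
    constructor
    · intro hσ
      obtain ⟨m, hm, rfl⟩ := exists_ofMask (Delta_sub hσ)
      have hface : isFaceMask m = true := (mem_Delta_mask hm).mp hσ
      refine ⟨?_, ?_⟩
      · refine (Finset.ssubset_iff_subset_ne).mpr ⟨ofMask_sub_range m, ?_⟩
        intro h
        have h1 := (Delta_isSphere.2.1 _ hσ).1
        rw [h] at h1
        simp at h1
      · let J : Finset ℕ := (range 27).filter (fun j => m &&& fm j = m)
        have hJ : ∀ j, j ∈ J ↔ j < 27 ∧ m &&& fm j = m := by
          intro j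
          simp only [J, Finset.mem_filter, Finset.mem_range]
        have key : ∀ v < 9, ∑ i : Fin 6, (∑ j ∈ J, ((nr j i : ℤ) : ℝ)) * ((pt v i : ℤ) : ℝ) =
            ∑ j ∈ J, ((∑ i : Fin 6, nr j i * pt v i : ℤ) : ℝ) := by
          intro v _
          simp only [Finset.sum_mul]
          rw [Finset.sum_comm]
          refine Finset.sum_congr rfl fun j _ => ?_
          push_cast
          rfl
        refine ⟨fun i => ∑ j ∈ J, ((nr j i : ℤ) : ℝ), ∑ j ∈ J, ((nr j 6 : ℤ) : ℝ), ?_, ?_⟩
        · intro v hv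
          obtain ⟨hv9, hvm⟩ := mem_ofMask.mp hv
          rw [key v hv9]
          refine Finset.sum_congr rfl fun j hj => ?_
          obtain ⟨hj27, hjm⟩ := (hJ j).mp hj
          have h1 := chkN j hj27 v hv9
          have h2 : (fm j).testBit v = true := by
            rw [← hjm, Nat.testBit_and, Bool.and_eq_true] at hvm
            exact hvm.2
          rw [if_pos h2] at h1
          rw [h1]
        · intro v hv
          rw [Finset.mem_sdiff, Finset.mem_range] at hv
          obtain ⟨hv9, hvm⟩ := hv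
          have hvm' : m.testBit v = false := by
            by_contra h
            exact hvm (mem_ofMask.mpr ⟨hv9, by simpa using h⟩)
          rw [key v hv9]
          obtain ⟨j0, hj0, hj0m, hj0v⟩ := chkF m hm hface v hv9 hvm'
          apply Finset.sum_lt_sum
          · intro j hj
            obtain ⟨hj27, _⟩ := (hJ j).mp hj
            have h1 := chkN j hj27 v hv9
            by_cases h2 : (fm j).testBit v = true
            · rw [if_pos h2] at h1
              rw [h1]
            · rw [if_neg h2] at h1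
              exact_mod_cast h1.le
          · refine ⟨j0, (hJ j0).mpr ⟨hj0, hj0m⟩, ?_⟩
            have h1 := chkN j0 hj0 v hv9
            rw [if_neg (by rw [hj0v]; decide)] at h1
            exact_mod_cast h1
    · rintro ⟨hσ, a, c, h1, h2⟩
      obtain ⟨m, hm, rfl⟩ := exists_ofMask hσ.subset
      rw [mem_Delta_mask hm]
      by_contra hface
      have hm511 : m < 511 := by
        have : m ≠ 511 := by
          rintro rfl
          have h3 : ofMask 511 = range 9 := by decide
          rw [h3] at hσ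
          exact hσ.2 subset_rfl
        omega
      obtain ⟨k, hk, hkm⟩ := chkM m hm511 (by simpa using hface)
      obtain ⟨hd1, hd2, hd3⟩ := chkD k hk
      have hsum : ∑ v ∈ range 9, ((dp k v : ℤ) : ℝ) *
          (∑ i : Fin 6, a i * ((pt v i : ℤ) : ℝ) - c) = 0 := by
        have e1 : ∀ v ∈ range 9, ((dp k v : ℤ) : ℝ) *
            (∑ i : Fin 6, a i * ((pt v i : ℤ) : ℝ) - c) =
            ∑ i : Fin 6, a i * (((dp k v : ℤ) : ℝ) * ((pt v i : ℤ) : ℝ)) -
              c * ((dp k v : ℤ) : ℝ) := by
          intro v _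
          rw [mul_sub, Finset.mul_sum]
          congr 1
          · refine Finset.sum_congr rfl fun i _ => ?_
            ring
          · ring
        rw [Finset.sum_congr rfl e1, Finset.sum_sub_distrib, Finset.sum_comm, ← Finset.mul_sum]
        have e2 : ∑ v ∈ range 9, ((dp k v : ℤ) : ℝ) = 0 := by exact_mod_cast hd2
        rw [e2, mul_zero, sub_zero]
        refine Finset.sum_eq_zero fun i _ => ?_
        rw [← Finset.mul_sum]
        have e3 : ∑ v ∈ range 9, ((dp k v : ℤ) : ℝ) * ((pt v i : ℤ) : ℝ) = 0 := by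
          exact_mod_cast hd1 i
        rw [e3, mul_zero]
      have hnonneg : ∀ v ∈ range 9, 0 ≤ ((dp k v : ℤ) : ℝ) *
          (∑ i : Fin 6, a i * ((pt v i : ℤ) : ℝ) - c) := by
        intro v hv
        have hv9 := Finset.mem_range.mp hv
        have h3 := hd3 v hv9
        by_cases h4 : v ∈ ofMask m
        · rw [h1 v h4, sub_self, mul_zero]
        · have h5 : (missM.getD k 0).testBit v = false := by
            by_contra h6
            have h7 : (missM.getD k 0).testBit v = true := by simpa using h6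
            rw [← hkm, Nat.testBit_and, Bool.and_eq_true] at h7
            exact h4 (mem_ofMask.mpr ⟨hv9, h7.2⟩)
          rw [if_neg (by rw [h5]; decide)] at h3
          have h6 : ((dp k v : ℤ) : ℝ) < 0 := by exact_mod_cast h3
          have h7 := h2 v (Finset.mem_sdiff.mpr ⟨hv, h4⟩)
          nlinarith
      have hzero := (Finset.sum_eq_zero_iff_of_nonneg hnonneg).mp hsum
      apply hσ.2
      intro v hv
      by_contra h4
      have hv9 := Finset.mem_range.mp hv
      have h3 := hd3 v hv9
      have h5 : (missM.getD k 0).testBit v = false := by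
        by_contra h6
        have h7 : (missM.getD k 0).testBit v = true := by simpa using h6
        rw [← hkm, Nat.testBit_and, Bool.and_eq_true] at h7
        exact h4 (mem_ofMask.mpr ⟨hv9, h7.2⟩)
      rw [if_neg (by rw [h5]; decide)] at h3
      have h6 : ((dp k v : ℤ) : ℝ) < 0 := by exact_mod_cast h3
      have h7 := h2 v (Finset.mem_sdiff.mpr ⟨hv, h4⟩)
      have h8 := hzero v hv
      nlinarith

end Pool.Agent.LibGk1
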