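import Pool.Agent.LibGk1.Defs

/-!
A complex with a shelling whose reverse is also a shelling is a `ℤ/2ℤ`-homology sphere.
-/

open Finset

namespace Pool.Agent.LibGk1

theorem neg_one_pow_z2 (k : ℕ) : ((-1 : ZMod 2)) ^ k = 1 := by
  have : (-1 : ZMod 2) = 1 := by decide
  rw [this, one_pow]

theorem bd_single (s : Finset ℕ) (a : ZMod 2) :
    bd (ZMod 2) (Finsupp.single s a) = ∑ v ∈ s, Finsupp.single (s.erase v) a := by
  unfold bd
  rw [Finsupp.linearCombination_single, Finset.smul_sum]
  refine Finset.sum_congr rfl fun v _ => ?_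
  rw [neg_one_pow_z2, Finsupp.smul_single, smul_eq_mul, mul_one]

theorem bd_apply (c : Finset ℕ →₀ ZMod 2) (U : Finset ℕ) (hU : ∀ H, c H ≠ 0 → H ⊆ U)
    (T : Finset ℕ) : bd (ZMod 2) c T = ∑ w ∈ U \ T, c (insert w T) := by
  have h1 : bd (ZMod 2) c = ∑ H ∈ c.support, ∑ v ∈ H, Finsupp.single (H.erase v) (c H) := by
    conv_lhs => rw [← Finsupp.sum_single c]
    rw [Finsupp.sum, map_sum]
    exact Finset.sum_congr rfl fun H _ => bd_single H (c H)
  rw [h1, Finsupp.finsetSum_apply]
  have h2 : ∀ H ∈ c.support, (∑ v ∈ H, Finsupp.single (H.erase v) (c H)) T =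
      ∑ w ∈ U \ T, if insert w T = H then c H else 0 := by
    intro H hH
    have hHU : H ⊆ U := hU H (Finsupp.mem_support_iff.mp hH)
    rw [Finsupp.finsetSum_apply]
    have h3 : ∀ v ∈ H, (Finsupp.single (H.erase v) (c H)) T = if H.erase v = T then c H else 0 := by
      intro v _
      rw [Finsupp.single_apply]
    rw [Finset.sum_congr rfl h3, ← Finset.sum_filter, ← Finset.sum_filter]
    congr 1
    ext v
    simp only [Finset.mem_filter, Finset.mem_sdiff]
    constructor
    · rintro ⟨hv, rfl⟩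
      exact ⟨⟨hHU hv, Finset.notMem_erase v H⟩, Finset.insert_erase hv⟩
    · rintro ⟨⟨_, hv⟩, rfl⟩
      exact ⟨Finset.mem_insert_self v T, Finset.erase_insert hv⟩
  rw [Finset.sum_congr rfl h2, Finset.sum_comm]
  refine Finset.sum_congr rfl fun w _ => ?_
  rw [Finset.sum_ite_eq]
  by_cases h : insert w T ∈ c.support
  · rw [if_pos h]
  · rw [if_neg h]
    exact (Finsupp.notMem_support_iff.mp h).symm

theorem bd_bd_single (s : Finset ℕ) :
    bd (ZMod 2) (bd (ZMod 2) (Finsupp.single s 1)) = 0 := by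
  ext T
  have hs1 : ∀ H, (Finsupp.single s (1 : ZMod 2)) H ≠ 0 → H ⊆ s := by
    intro H hH
    by_cases h : s = H
    · rw [h]
    · exact absurd (Finsupp.single_eq_of_ne (Ne.symm h)) hH
  have hs2 : ∀ H, (bd (ZMod 2) (Finsupp.single s (1 : ZMod 2))) H ≠ 0 → H ⊆ s := by
    intro H hH
    rw [bd_apply _ s hs1] at hH
    obtain ⟨w, hw, hne⟩ := Finset.exists_ne_zero_of_sum_ne_zero hH
    exact (Finset.subset_insert w H).trans (hs1 _ hne)
  rw [bd_apply _ s hs2]
  have h3 : ∀ w ∈ s \ T, (bd (ZMod 2) (Finsupp.single s (1 : ZMod 2))) (insert w T) =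
      ∑ u ∈ (s \ T).erase w, Finsupp.single s (1 : ZMod 2) (insert u (insert w T)) := by
    intro w _
    rw [bd_apply _ s hs1]
    congr 1
    ext u
    simp only [Finset.mem_sdiff, Finset.mem_insert, Finset.mem_erase, not_or]
    tauto
  rw [Finset.sum_congr rfl h3, Finset.sum_sigma']
  refine Finset.sum_involution (fun x _ => ⟨x.2, x.1⟩) ?_ ?_ ?_ ?_
  · rintro ⟨w, u⟩ _
    have : insert u (insert w T) = insert w (insert u T) := Finset.insert_comm u w T
    simp only [this]
    exact CharTwo.add_self_eq_zero _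
  · rintro ⟨w, u⟩ hx _ h
    simp only [Finset.mem_sigma, Finset.mem_erase] at hx
    have := congrArg Sigma.fst h
    exact hx.2.1 this
  · rintro ⟨w, u⟩ hx
    simp only [Finset.mem_sigma, Finset.mem_erase] at hx ⊢
    exact ⟨hx.2.2, Ne.symm hx.2.1, hx.1⟩
  · rintro ⟨w, u⟩ _
    rfl

theorem bd_bd (c : Finset ℕ →₀ ZMod 2) : bd (ZMod 2) (bd (ZMod 2) c) = 0 := by
  induction c using Finsupp.induction_linear with
  | zero => simp
  | add f g hf hg => rw [map_add, map_add, hf, hg, add_zero]
  | single s a =>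
    have : Finsupp.single s a = a • Finsupp.single s (1 : ZMod 2) := by
      rw [Finsupp.smul_single, smul_eq_mul, mul_one]
    rw [this, map_smul, map_smul, bd_bd_single, smul_zero]

theorem mem_chains {Δ : Finset (Finset ℕ)} {n : ℕ} {c : Finset ℕ →₀ ZMod 2} :
    c ∈ chains (ZMod 2) Δ n ↔ ∀ H, c H ≠ 0 → H ∈ Δ ∧ H.card = n := by
  unfold chains
  rw [Finsupp.mem_supported]
  constructor
  · intro h H hH
    exact h (Finsupp.mem_support_iff.mpr hH)
  · intro h H hH
    exact h H (Finsupp.mem_support_iff.mp hH)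

theorem bd_mem_chains {Δ : Finset (Finset ℕ)} (hΔ : ∀ s ∈ Δ, ∀ t, t ⊆ s → t ∈ Δ) {n : ℕ}
    {c : Finset ℕ →₀ ZMod 2} (hc : c ∈ chains (ZMod 2) Δ (n + 1)) :
    bd (ZMod 2) c ∈ chains (ZMod 2) Δ n := by
  rw [mem_chains] at hc ⊢
  intro H hH
  have hU : ∀ H, c H ≠ 0 → H ⊆ Δ.biUnion id := by
    intro H hH
    exact Finset.subset_biUnion_of_mem id (hc H hH).1
  rw [bd_apply c _ hU] at hH
  obtain ⟨w, hw, hne⟩ := Finset.exists_ne_zero_of_sum_ne_zero hH
  obtain ⟨h1, h2⟩ := hc _ hne
  refine ⟨hΔ _ h1 _ (Finset.subset_insert w H), ?_⟩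
  rw [Finset.card_insert_of_notMem (Finset.mem_sdiff.mp hw).2] at h2
  omega

/-- Every cycle is a boundary. -/
def Ex (L : Finset (Finset ℕ)) (n : ℕ) : Prop :=
  cycles (ZMod 2) L n ≤ boundaries (ZMod 2) L n

theorem chains_mono {L L' : Finset (Finset ℕ)} (h : L ⊆ L') (n : ℕ) :
    chains (ZMod 2) L n ≤ chains (ZMod 2) L' n := by
  intro c hc
  rw [mem_chains] at hc ⊢
  intro H hH
  exact ⟨h (hc H hH).1, (hc H hH).2⟩

theorem Ex_pair {L L' : Finset (Finset ℕ)} (hL : ∀ s ∈ L, ∀ t, t ⊆ s → t ∈ L)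
    (hL' : ∀ s ∈ L', ∀ t, t ⊆ s → t ∈ L') {R Fc : Finset ℕ} {v : ℕ} (hvF : v ∈ Fc) (hvR : v ∉ R)
    (hmem : ∀ G, G ∈ L' ↔ G ∈ L ∨ (R ⊆ G ∧ G ⊆ Fc))
    (hnew : ∀ G, R ⊆ G → G ⊆ Fc → G ∉ L) {n : ℕ} (h : Ex L n) : Ex L' n := by
  classical
  intro c hc
  obtain ⟨hcc, hcb⟩ := Submodule.mem_inf.mp hc
  rw [LinearMap.mem_ker] at hcb
  have hcc' := mem_chains.mp hcc
  have hLL' : L ⊆ L' := fun G hG => (hmem G).mpr (Or.inl hG)
  -- the correcting chain
  let b : Finset ℕ →₀ ZMod 2 := Finsupp.onFinset Fc.powerset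
    (fun H => if v ∈ H ∧ R ⊆ H ∧ H ⊆ Fc then c (H.erase v) else 0) (by
      intro H hH
      by_cases h : v ∈ H ∧ R ⊆ H ∧ H ⊆ Fc
      · exact Finset.mem_powerset.mpr h.2.2
      · rw [if_neg h] at hH
        exact absurd rfl hH)
  have hb : ∀ H, b H = if v ∈ H ∧ R ⊆ H ∧ H ⊆ Fc then c (H.erase v) else 0 := fun H => rfl
  have hbU : ∀ H, b H ≠ 0 → H ⊆ Fc := by
    intro H hH
    rw [hb] at hH
    by_cases h : v ∈ H ∧ R ⊆ H ∧ H ⊆ Fc
    · exact h.2.2
    · rw [if_neg h] at hH
      exact absurd rfl hH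
  have hbc : b ∈ chains (ZMod 2) L' (n + 1) := by
    rw [mem_chains]
    intro H hH
    rw [hb] at hH
    by_cases h : v ∈ H ∧ R ⊆ H ∧ H ⊆ Fc
    · rw [if_pos h] at hH
      have h1 := (hcc' _ hH).2
      rw [Finset.card_erase_of_mem h.1] at h1
      have h2 : 0 < H.card := Finset.card_pos.mpr ⟨v, h.1⟩
      exact ⟨(hmem H).mpr (Or.inr h.2), by omega⟩
    · rw [if_neg h] at hH
      exact absurd rfl hH
  set c' : Finset ℕ →₀ ZMod 2 := c - bd (ZMod 2) b with hc'
  have hc'c : c' ∈ chains (ZMod 2) L' n :=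
    Submodule.sub_mem _ hcc (bd_mem_chains hL' hbc)
  have hc'c' := mem_chains.mp hc'c
  have hc'b : bd (ZMod 2) c' = 0 := by
    rw [hc', map_sub, hcb, bd_bd, sub_zero]
  have key1 : ∀ G, R ⊆ G → G ⊆ Fc → v ∉ G → c' G = 0 := by
    intro G h1 h2 h3
    have h4 : bd (ZMod 2) b G = c G := by
      rw [bd_apply b Fc hbU, Finset.sum_eq_single v]
      · rw [hb, if_pos, Finset.erase_insert h3]
        exact ⟨Finset.mem_insert_self _ _, h1.trans (Finset.subset_insert _ _),
          Finset.insert_subset hvF h2⟩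
      · intro w _ hwv
        rw [hb, if_neg]
        rintro ⟨h5, _⟩
        rcases Finset.mem_insert.mp h5 with h6 | h6
        · exact hwv h6.symm
        · exact h3 h6
      · intro h5
        exact absurd (Finset.mem_sdiff.mpr ⟨hvF, h3⟩) h5
    rw [hc', Finsupp.sub_apply, h4, sub_self]
  have key2 : ∀ G, R ⊆ G → G ⊆ Fc → c' G = 0 := by
    intro G h1 h2
    by_cases h3 : v ∈ G
    · have hU : ∀ H, c' H ≠ 0 → H ⊆ L'.biUnion id := by
        intro H hH
        exact Finset.subset_biUnion_of_mem id (hc'c' H hH).1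
      have h4 : bd (ZMod 2) c' (G.erase v) = c' G := by
        rw [bd_apply c' _ hU, Finset.sum_eq_single v]
        · rw [Finset.insert_erase h3]
        · intro w hw hwv
          by_contra hne
          have h5 := (hc'c' _ hne).1
          have h6 : G.erase v ∉ L := by
            refine hnew _ ?_ ((Finset.erase_subset _ _).trans h2)
            intro r hr
            refine Finset.mem_erase.mpr ⟨?_, h1 hr⟩
            rintro rfl
            exact hvR hr
          have h7 : insert w (G.erase v) ∉ L := fun h => h6 (hL _ h _ (Finset.subset_insert _ _))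
          rcases (hmem _).mp h5 with h8 | h8
          · exact h7 h8
          · refine hne (key1 _ h8.1 h8.2 ?_)
            intro h9
            rcases Finset.mem_insert.mp h9 with h10 | h10
            · exact hwv h10.symm
            · exact Finset.notMem_erase v G h10
        · intro h5
          have hG : G ∈ L' := (hmem G).mpr (Or.inr ⟨h1, h2⟩)
          exact absurd (Finset.mem_sdiff.mpr
            ⟨Finset.subset_biUnion_of_mem id hG h3, Finset.notMem_erase v G⟩) h5
      rw [← h4, hc'b]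
      rfl
    · exact key1 G h1 h2 h3
  have hc'L : c' ∈ cycles (ZMod 2) L n := by
    refine Submodule.mem_inf.mpr ⟨?_, ?_⟩
    · rw [mem_chains]
      intro H hH
      refine ⟨?_, (hc'c' H hH).2⟩
      rcases (hmem _).mp (hc'c' H hH).1 with h8 | h8
      · exact h8
      · exact absurd (key2 H h8.1 h8.2) hH
    · rw [LinearMap.mem_ker]
      exact hc'b
  obtain ⟨b', hb', hb''⟩ := Submodule.mem_map.mp (h hc'L)
  refine Submodule.mem_map.mpr ⟨b + b', ?_, ?_⟩
  · exact Submodule.add_mem _ hbc (chains_mono hLL' _ hb')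
  · rw [map_add, hb'', hc']
    abel

theorem quotDim_zero {V : Type} [AddCommGroup V] [Module (ZMod 2) V]
    {Z B : Submodule (ZMod 2) V} (h : Z ≤ B) : quotDim (ZMod 2) Z B = 0 := by
  unfold quotDim
  have : B.submoduleOf Z = ⊤ := Submodule.submoduleOf_eq_top.mpr h
  rw [this]
  exact Module.finrank_zero_of_subsingleton

theorem quotDim_bot {V : Type} [AddCommGroup V] [Module (ZMod 2) V]
    (Z : Submodule (ZMod 2) V) : quotDim (ZMod 2) Z ⊥ = Module.finrank (ZMod 2) Z := by
  unfold quotDim
  have : (⊥ : Submodule (ZMod 2) V).submoduleOf Z = ⊥ := by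
    unfold Submodule.submoduleOf
    rw [Submodule.comap_bot, Submodule.ker_subtype]
  rw [this]
  exact (Submodule.quotEquivOfEqBot _ rfl).finrank_eq

theorem sphere_of_final {L L' : Finset (Finset ℕ)} {G : Finset ℕ} {m : ℕ}
    (hex : ∀ n, Ex L n) (hL' : L' = insert G L) (hG : G ∉ L)
    (hcard : G.card = m) (hsub : ∀ t, t ⊂ G → t ∈ L) (hle : ∀ s ∈ L, s.card ≤ m) :
    SphereHomology (ZMod 2) L' m := by
  classical
  have hmem : ∀ s, s ∈ L' ↔ s = G ∨ s ∈ L := by
    intro s
    rw [hL', Finset.mem_insert]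
  have hchains_lt : ∀ n, n ≠ m → chains (ZMod 2) L' n = chains (ZMod 2) L n := by
    intro n hn
    apply le_antisymm
    · intro c hc
      rw [mem_chains] at hc ⊢
      intro H hH
      obtain ⟨h1, h2⟩ := hc H hH
      rcases (hmem H).mp h1 with h3 | h3
      · rw [h3, hcard] at h2
        exact absurd h2.symm hn
      · exact ⟨h3, h2⟩
    · exact chains_mono (fun s hs => (hmem s).mpr (Or.inr hs)) n
  have hchains_gt : ∀ n, m < n → chains (ZMod 2) L n = ⊥ := by
    intro n hn
    rw [eq_bot_iff]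
    intro c hc
    rw [Submodule.mem_bot]
    ext H
    by_contra hne
    obtain ⟨h1, h2⟩ := mem_chains.mp hc H hne
    have := hle H h1
    omega
  have hLsub : L ⊆ L' := fun s hs => (hmem s).mpr (Or.inr hs)
  intro n
  unfold betti
  by_cases hnm : n = m
  · subst hnm
    rw [if_pos rfl]
    have hB : boundaries (ZMod 2) L' n = ⊥ := by
      unfold boundaries
      rw [hchains_lt (n + 1) (by omega), hchains_gt (n + 1) (by omega), Submodule.map_bot]
    have hZL : cycles (ZMod 2) L n = ⊥ := by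
      rw [eq_bot_iff]
      refine (hex n).trans ?_
      unfold boundaries
      rw [hchains_gt (n + 1) (by omega), Submodule.map_bot]
    -- a cycle with coefficient one at `G`
    obtain ⟨z, hz, hzG⟩ : ∃ z ∈ cycles (ZMod 2) L' n, z G = 1 := by
      have hbG : ∃ c ∈ chains (ZMod 2) L n, bd (ZMod 2) c = bd (ZMod 2) (Finsupp.single G 1) := by
        rcases Nat.eq_zero_or_pos n with h0 | h0
        · refine ⟨0, Submodule.zero_mem _, ?_⟩
          have : G = ∅ := Finset.card_eq_zero.mp (hcard.trans h0)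
          rw [this, bd_single, map_zero, Finset.sum_empty]
        · obtain ⟨k, rfl⟩ : ∃ k, n = k + 1 := ⟨n - 1, by omega⟩
          have h1 : bd (ZMod 2) (Finsupp.single G 1) ∈ cycles (ZMod 2) L k := by
            refine Submodule.mem_inf.mpr ⟨?_, ?_⟩
            · rw [mem_chains]
              intro H hH
              rw [bd_single, Finsupp.finsetSum_apply] at hH
              obtain ⟨w, hw, hne⟩ := Finset.exists_ne_zero_of_sum_ne_zero hH
              have h2 : G.erase w = H := by
                by_contra h3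
                exact hne (Finsupp.single_eq_of_ne (Ne.symm h3))
              rw [← h2]
              refine ⟨hsub _ (Finset.erase_ssubset hw), ?_⟩
              rw [Finset.card_erase_of_mem hw, hcard]
              rfl
            · rw [LinearMap.mem_ker]
              exact bd_bd _
          obtain ⟨c, hc, hc'⟩ := Submodule.mem_map.mp (hex k h1)
          exact ⟨c, hc, hc'⟩
      obtain ⟨c, hc, hc'⟩ := hbG
      refine ⟨Finsupp.single G 1 - c, ?_, ?_⟩
      · refine Submodule.mem_inf.mpr ⟨Submodule.sub_mem _ ?_ (chains_mono hLsub _ hc), ?_⟩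
        · rw [mem_chains]
          intro H hH
          have : G = H := by
            by_contra h3
            exact hH (Finsupp.single_eq_of_ne (Ne.symm h3))
          rw [← this]
          exact ⟨(hmem G).mpr (Or.inl rfl), hcard⟩
        · rw [LinearMap.mem_ker, map_sub, hc', sub_self]
      · rw [Finsupp.sub_apply, Finsupp.single_eq_same]
        have : c G = 0 := by
          by_contra hne
          exact hG (mem_chains.mp hc G hne).1
        rw [this, sub_zero]
    have hspan : cycles (ZMod 2) L' n = Submodule.span (ZMod 2) {z} := by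
      apply le_antisymm
      · intro y hy
        rw [Submodule.mem_span_singleton]
        refine ⟨y G, ?_⟩
        have h1 : y - y G • z ∈ cycles (ZMod 2) L n := by
          have h2 : y - y G • z ∈ cycles (ZMod 2) L' n :=
            Submodule.sub_mem _ hy (Submodule.smul_mem _ _ hz)
          obtain ⟨h3, h4⟩ := Submodule.mem_inf.mp h2
          refine Submodule.mem_inf.mpr ⟨?_, h4⟩
          rw [mem_chains] at h3 ⊢
          intro H hH
          obtain ⟨h5, h6⟩ := h3 H hH
          refine ⟨?_, h6⟩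
          rcases (hmem H).mp h5 with h7 | h7
          · exfalso
            apply hH
            rw [h7, Finsupp.sub_apply, Finsupp.smul_apply, hzG, smul_eq_mul, mul_one, sub_self]
          · exact h7
        rw [hZL, Submodule.mem_bot] at h1
        exact (sub_eq_zero.mp h1).symm
      · rw [Submodule.span_singleton_le_iff_mem]
        exact hz
    have hz0 : z ≠ 0 := by
      intro h
      rw [h] at hzG
      exact zero_ne_one hzG
    rw [hB, quotDim_bot, hspan]
    exact finrank_span_singleton hz0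
  · rw [if_neg hnm]
    apply quotDim_zero
    intro c hc
    obtain ⟨h1, h2⟩ := Submodule.mem_inf.mp hc
    rw [hchains_lt n hnm] at h1
    obtain ⟨b, hb, hb'⟩ := Submodule.mem_map.mp (hex n (Submodule.mem_inf.mpr ⟨h1, h2⟩))
    exact Submodule.mem_map.mpr ⟨b, chains_mono hLsub _ hb, hb'⟩

/-- A shelling `Fc 0, …, Fc (t-1)` with restriction sets `R j` whose reverse is a shelling with
restriction sets `Fc j \ R j`. -/
theorem isSphere_of_shelling {t d : ℕ} (ht : 0 < t) {Fc R : ℕ → Finset ℕ}
    {Δ : Finset (Finset ℕ)} (hΔ : ∀ H, H ∈ Δ ↔ ∃ j, j < t ∧ H ⊆ Fc j)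
    (hcard : ∀ j, j < t → (Fc j).card = d)
    (S1 : ∀ j, j < t → ∀ H, H ⊆ Fc j → ((∃ i, i < j ∧ H ⊆ Fc i) ↔ ¬ R j ⊆ H))
    (S2 : ∀ j, j < t → ∀ H, H ⊆ Fc j →
      ((∃ i, i < t ∧ j < i ∧ H ⊆ Fc i) ↔ ¬ Fc j \ R j ⊆ H)) :
    IsSphere (ZMod 2) d Δ := by
  classical
  refine ⟨⟨?_, ?_⟩, ?_, ?_⟩
  · exact (hΔ ∅).mpr ⟨0, ht, Finset.empty_subset _⟩
  · intro s hs u hu
    obtain ⟨j, hj, hsj⟩ := (hΔ s).mp hs
    exact (hΔ u).mpr ⟨j, hj, hu.trans hsj⟩
  · intro s hs
    obtain ⟨j, hj, hsj⟩ := (hΔ s).mp hs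
    refine ⟨?_, Fc j, (hΔ _).mpr ⟨j, hj, subset_rfl⟩, hsj, hcard j hj⟩
    rw [← hcard j hj]
    exact Finset.card_le_card hsj
  · intro σ hσ
    -- the last facet containing `σ`
    obtain ⟨m, hm, hmσ, hlast⟩ : ∃ m, m < t ∧ σ ⊆ Fc m ∧ ∀ i, i < t → m < i → ¬ σ ⊆ Fc i := by
      have hne : ((Finset.range t).filter (fun j => σ ⊆ Fc j)).Nonempty := by
        obtain ⟨j, hj, hsj⟩ := (hΔ σ).mp hσ
        exact ⟨j, Finset.mem_filter.mpr ⟨Finset.mem_range.mpr hj, hsj⟩⟩
      refine ⟨((Finset.range t).filter (fun j => σ ⊆ Fc j)).max' hne, ?_, ?_, ?_⟩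
      · exact Finset.mem_range.mp (Finset.mem_filter.mp (Finset.max'_mem _ hne)).1
      · exact (Finset.mem_filter.mp (Finset.max'_mem _ hne)).2
      · intro i hi hlt hsub
        have := Finset.le_max' ((Finset.range t).filter (fun j => σ ⊆ Fc j)) i
          (Finset.mem_filter.mpr ⟨Finset.mem_range.mpr hi, hsub⟩)
        omega
    let P : ℕ → Finset (Finset ℕ) := fun j =>
      Δ.filter (fun G => Disjoint G σ ∧ ∃ i, i < j ∧ i < t ∧ G ∪ σ ⊆ Fc i)
    have hP : ∀ j G, G ∈ P j ↔ Disjoint G σ ∧ ∃ i, i < j ∧ i < t ∧ G ∪ σ ⊆ Fc i := by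
      intro j G
      simp only [P, Finset.mem_filter]
      constructor
      · exact fun h => h.2
      · rintro ⟨h1, i, h2, h3, h4⟩
        exact ⟨(hΔ G).mpr ⟨i, h3, Finset.subset_union_left.trans h4⟩, h1, i, h2, h3, h4⟩
    have hPd : ∀ j, ∀ s ∈ P j, ∀ u, u ⊆ s → u ∈ P j := by
      intro j s hs u hu
      obtain ⟨h1, i, h2, h3, h4⟩ := (hP j s).mp hs
      exact (hP j u).mpr ⟨Finset.disjoint_of_subset_left hu h1, i, h2, h3,
        (Finset.union_subset_union_left hu).trans h4⟩
    have hnewiff : ∀ j, j < t → σ ⊆ Fc j → ∀ G, G ∈ P (j + 1) ↔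
        G ∈ P j ∨ (R j \ σ ⊆ G ∧ G ⊆ Fc j \ σ) := by
      intro j hj hσj G
      constructor
      · intro hG
        obtain ⟨h1, i, h2, h3, h4⟩ := (hP _ G).mp hG
        by_cases hij : i < j
        · exact Or.inl ((hP _ G).mpr ⟨h1, i, hij, h3, h4⟩)
        · have : i = j := by omega
          subst this
          by_cases h5 : R i ⊆ G ∪ σ
          · right
            constructor
            · intro x hx
              rw [Finset.mem_sdiff] at hx
              rcases Finset.mem_union.mp (h5 hx.1) with h6 | h6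
              · exact h6
              · exact absurd h6 hx.2
            · intro x hx
              exact Finset.mem_sdiff.mpr ⟨h4 (Finset.mem_union_left _ hx),
                Finset.disjoint_left.mp h1 hx⟩
          · left
            obtain ⟨i', h6, h7⟩ := (S1 i hj _ h4).mpr h5
            exact (hP _ G).mpr ⟨h1, i', h6, by omega, h7⟩
      · rintro (hG | ⟨h1, h2⟩)
        · obtain ⟨h1, i, h2, h3, h4⟩ := (hP _ G).mp hG
          exact (hP _ G).mpr ⟨h1, i, by omega, h3, h4⟩
        · refine (hP _ G).mpr ⟨?_, j, by omega, hj, ?_⟩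
          · rw [Finset.disjoint_left]
            intro x hx
            exact (Finset.mem_sdiff.mp (h2 hx)).2
          · apply Finset.union_subset _ hσj
            exact h2.trans Finset.sdiff_subset
    have hnew : ∀ j, j < t → σ ⊆ Fc j → ∀ G, R j \ σ ⊆ G → G ⊆ Fc j \ σ → G ∉ P j := by
      intro j hj hσj G h1 h2 hG
      obtain ⟨h3, i, h4, h5, h6⟩ := (hP _ G).mp hG
      have h7 : G ∪ σ ⊆ Fc j := Finset.union_subset (h2.trans Finset.sdiff_subset) hσj
      refine (S1 j hj _ h7).mp ⟨i, h4, h6⟩ ?_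
      intro x hx
      by_cases hxs : x ∈ σ
      · exact Finset.mem_union_right _ hxs
      · exact Finset.mem_union_left _ (h1 (Finset.mem_sdiff.mpr ⟨hx, hxs⟩))
    have hexact : ∀ j, j ≤ m → ∀ n, Ex (P j) n := by
      intro j
      induction j with
      | zero =>
        intro _ n c hc
        obtain ⟨h1, _⟩ := Submodule.mem_inf.mp hc
        have : c = 0 := by
          ext H
          by_contra hne
          obtain ⟨h2, _⟩ := mem_chains.mp h1 H hne
          obtain ⟨_, i, h3, _⟩ := (hP _ H).mp h2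
          omega
        rw [this]
        exact Submodule.zero_mem _
      | succ j ih =>
        intro hj n
        have hex := ih (by omega)
        have hjt : j < t := by omega
        by_cases hσj : σ ⊆ Fc j
        · have h1 : ¬ Fc j \ R j ⊆ σ := (S2 j hjt σ hσj).mp ⟨m, hm, by omega, hmσ⟩
          obtain ⟨v, hv, hvσ⟩ := Finset.not_subset.mp h1
          rw [Finset.mem_sdiff] at hv
          exact Ex_pair (hPd j) (hPd (j + 1)) (Finset.mem_sdiff.mpr ⟨hv.1, hvσ⟩)
            (fun h => hv.2 (Finset.mem_sdiff.mp h).1) (hnewiff j hjt hσj) (hnew j hjt hσj) (hex n)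
        · have : P (j + 1) = P j := by
            ext G
            rw [hP, hP]
            constructor
            · rintro ⟨h1, i, h2, h3, h4⟩
              refine ⟨h1, i, ?_, h3, h4⟩
              have : i ≠ j := by
                rintro rfl
                exact hσj (Finset.subset_union_right.trans h4)
              omega
            · rintro ⟨h1, i, h2, h3, h4⟩
              exact ⟨h1, i, by omega, h3, h4⟩
          rw [this]
          exact hex n
    have hlink : link Δ σ = P (m + 1) := by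
      ext G
      unfold link
      rw [Finset.mem_filter, hP]
      constructor
      · rintro ⟨_, h1, h2⟩
        obtain ⟨i, h3, h4⟩ := (hΔ _).mp h2
        refine ⟨h1, i, ?_, h3, h4⟩
        by_contra h5
        exact hlast i h3 (by omega) (Finset.subset_union_right.trans h4)
      · rintro ⟨h1, i, h2, h3, h4⟩
        exact ⟨(hΔ _).mpr ⟨i, h3, Finset.subset_union_left.trans h4⟩, h1, (hΔ _).mpr ⟨i, h3, h4⟩⟩
    have hRm : Fc m \ σ ⊆ R m \ σ := by
      have h1 : Fc m \ R m ⊆ σ := by
        by_contra h2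
        obtain ⟨i, h3, h4, h5⟩ := (S2 m hm σ hmσ).mpr h2
        exact hlast i h3 h4 h5
      intro x hx
      rw [Finset.mem_sdiff] at hx ⊢
      refine ⟨?_, hx.2⟩
      by_contra h2
      exact hx.2 (h1 (Finset.mem_sdiff.mpr ⟨hx.1, h2⟩))
    rw [hlink]
    refine sphere_of_final (L := P m) (G := Fc m \ σ) (hexact m le_rfl) ?_ ?_ ?_ ?_ ?_
    · ext G
      rw [hnewiff m hm hmσ, Finset.mem_insert]
      constructor
      · rintro (h | ⟨h1, h2⟩)
        · exact Or.inr h
        · exact Or.inl (subset_antisymm h2 (hRm.trans h1))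
      · rintro (h | h)
        · right
          rw [h]
          by_cases hRF : R m \ σ ⊆ Fc m \ σ
          · exact ⟨hRF, subset_rfl⟩
          · exfalso
            -- `R m` is contained in `Fc m`, as otherwise the first facet cannot be reached
            apply hRF
            intro x hx
            rw [Finset.mem_sdiff] at hx ⊢
            refine ⟨?_, hx.2⟩
            by_contra hxF
            have h2 : ¬ R m ⊆ Fc m := fun h => hxF (h hx.1)
            obtain ⟨i, h3, h4⟩ := (S1 m hm (Fc m) subset_rfl).mpr h2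
            have h5 : Fc m = Fc i := Finset.eq_of_subset_of_card_le h4
              (by rw [hcard i (by omega), hcard m hm])
            exact (S2 i (by omega) (Fc i) subset_rfl).mp ⟨m, hm, h3, h5 ▸ subset_rfl⟩
              Finset.sdiff_subset
        · exact Or.inl h
    · refine hnew m hm hmσ _ ?_ subset_rfl
      intro x hx
      by_cases hRF : R m ⊆ Fc m
      · rw [Finset.mem_sdiff] at hx ⊢
        exact ⟨hRF hx.1, hx.2⟩
      · exfalso
        obtain ⟨i, h3, h4⟩ := (S1 m hm (Fc m) subset_rfl).mpr hRF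
        have h5 : Fc m = Fc i := Finset.eq_of_subset_of_card_le h4
          (by rw [hcard i (by omega), hcard m hm])
        exact (S2 i (by omega) (Fc i) subset_rfl).mp ⟨m, hm, h3, h5 ▸ subset_rfl⟩
          Finset.sdiff_subset
    · rw [Finset.card_sdiff_of_subset hmσ, hcard m hm]
    · intro u hu
      have h1 : u ∪ σ ⊆ Fc m :=
        Finset.union_subset (hu.subset.trans Finset.sdiff_subset) hmσ
      have h2 : ¬ R m ⊆ u ∪ σ := by
        intro h3
        apply hu.2
        intro x hx
        have h4 := hRm hx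
        rw [Finset.mem_sdiff] at h4
        rcases Finset.mem_union.mp (h3 h4.1) with h5 | h5
        · exact h5
        · exact absurd h5 h4.2
      obtain ⟨i, h3, h4⟩ := (S1 m hm _ h1).mpr h2
      refine (hP _ u).mpr ⟨?_, i, h3, by omega, h4⟩
      rw [Finset.disjoint_left]
      intro x hx
      exact (Finset.mem_sdiff.mp (hu.subset hx)).2
    · intro s hs
      obtain ⟨h1, i, h2, h3, h4⟩ := (hP _ s).mp hs
      have h5 := Finset.card_le_card h4
      rw [Finset.card_union_of_disjoint h1, hcard i h3] at h5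
      omega

end Pool.Agent.LibGk1
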